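import Mathlib

/-!
# Artin representations, automorphy and the Hasse-Weil conjecture for rational elliptic curves

`Gal(ℚ̄/ℚ)` acts on the field `ℚ̄` of the algebraic numbers. A number field embedded in `ℚ̄` corresponds
to its Galois group, a subgroup `H` of `Gal(ℚ̄/ℚ)` which contains all elements fixing some finite set
of algebraic numbers.
-/

set_option autoImplicit false

namespace Pool.Agent.V7H2.HW

open NumberField IsDedekindDomain

/-- the field `ℚ̄` of algebraic numbers -/
def QQ : Type := AlgebraicClosure ℚ

noncomputable instance : Field QQ := AlgebraicClosure.instField ℚ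

/-- the absolute Galois group of `ℚ` -/
def Gam : Type := RingAut QQ

noncomputable instance : Group Gam := RingAut.instGroup QQ

/-- the action on algebraic numbers -/
noncomputable def Gam.app (g : Gam) (x : QQ) : QQ := (show QQ ≃+* QQ from g) x

/-- `c` is a complex conjugation (for some embedding of `ℚ̄` in `ℂ`) -/
def IsCC (c : Gam) : Prop := ∃ ι : QQ →+* ℂ, ∀ x, ι (c.app x) = (starRingEnd ℂ) (ι x)

/-- `g` fixes the elements of `S` -/
def Fixes (S : Finset QQ) (g : Gam) : Prop := ∀ x ∈ S, g.app x = x

/-- `H` is the Galois group of a number field: it contains all elements which fix some finite set of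
algebraic numbers -/
def IsNumberField (H : Subgroup Gam) : Prop := ∃ S : Finset QQ, ∀ g, Fixes S g → g ∈ H

/-- the number field with Galois group `H` is totally real: `H` contains all complex conjugations -/
def IsTotReal (H : Subgroup Gam) : Prop := ∀ c : Gam, IsCC c → c ∈ H

/-- **Artin representations** of the number field with Galois group `H`: finite dimensional complex
representations which are trivial on the elements fixing some finite set of algebraic numbers -/
structure ArtinRep (H : Subgroup Gam) where
  W : Type
  [acg : AddCommGroup W]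
  [mod : Module ℂ W]
  [fd : FiniteDimensional ℂ W]
  ρ : H →* Module.End ℂ W
  artin : ∃ S : Finset QQ, ∀ g : H, Fixes S g → ρ g = 1

attribute [instance] ArtinRep.acg ArtinRep.mod ArtinRep.fd

/-- `e` is an isomorphism of vector spaces -/
def IsLinIso {U W : Type} [AddCommGroup U] [Module ℂ U] [AddCommGroup W] [Module ℂ W]
    (e : U → W) : Prop := IsLinearMap ℂ e ∧ Function.Bijective e

/-- `b` is a bilinear map which makes `W` a tensor product of `U` and `V` -/
def IsTensorMap {U V W : Type} [AddCommGroup U] [Module ℂ U] [AddCommGroup V] [Module ℂ V]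
    [AddCommGroup W] [Module ℂ W] (b : U → V → W) : Prop :=
  ∃ e : TensorProduct ℂ U V ≃ₗ[ℂ] W, ∀ u v, b u v = e (u ⊗ₜ[ℂ] v)

/-- `B` is a nondegenerate symmetric bilinear form -/
def IsSymForm {W : Type} [AddCommGroup W] [Module ℂ W] (B : W → W → ℂ) : Prop :=
  (∀ v w, B v w = B w v) ∧ (∀ w, IsLinearMap ℂ fun v => B v w) ∧ ∀ v, (∀ w, B v w = 0) → v = 0

/-- `ψ` is a character of finite order of the number field with Galois group `H` -/
def IsChar {H : Subgroup Gam} (ψ : H →* ℂ) : Prop :=
  ∃ S : Finset QQ, ∀ g : H, Fixes S g → ψ g = 1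

namespace ArtinRep

variable {H : Subgroup Gam}

/-- the action -/
noncomputable def act (R : ArtinRep H) (g : H) (w : R.W) : R.W := R.ρ g w

/-- the dimension -/
noncomputable def dim (R : ArtinRep H) : ℕ := Module.finrank ℂ R.W

/-- the determinant -/
noncomputable def det (R : ArtinRep H) (g : H) : ℂ := LinearMap.det (R.ρ g)

/-- `R` respects a nondegenerate symmetric bilinear form -/
def Orthogonal (R : ArtinRep H) : Prop :=
  ∃ B : R.W → R.W → ℂ, IsSymForm B ∧ ∀ g v w, B (R.act g v) (R.act g w) = B v w

/-- the image of `R` is a soluble group: some term of the derived series of `H` acts trivially -/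
def SolubleImage (R : ArtinRep H) : Prop := ∃ n, ∀ g ∈ derivedSeries H n, R.ρ g = 1

/-- `R` is isomorphic to the tensor product of `S` and `T` -/
def IsTensor (S T R : ArtinRep H) : Prop :=
  ∃ b : S.W → T.W → R.W, IsTensorMap b ∧ ∀ g u v, R.act g (b u v) = b (S.act g u) (T.act g v)

/-- `R` is isomorphic to the twist of `S` by the character `ψ` -/
def IsTwist (S : ArtinRep H) (ψ : H →* ℂ) (R : ArtinRep H) : Prop :=
  ∃ e : S.W → R.W, IsLinIso e ∧ ∀ g w, R.act g (e w) = ψ g • e (S.act g w)

end ArtinRep

/-- **The Asai representation** (tensor induction): `H'` is a subgroup of `H` of index two (the Galois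
group of a quadratic extension), `τ` is a representation of `H'`, and `R` is the representation of `H`
on `τ ⊗ τ` for which `h` in `H'` acts by `τ(h) ⊗ τ(σ h σ⁻¹)` and `σ`, a fixed element of `H` outside
`H'`, maps `u ⊗ v` to `v ⊗ τ(σ²) u`. -/
def IsAsai {H H' : Subgroup Gam} (τ : ArtinRep H') (R : ArtinRep H) : Prop :=
  ∃ (σ : H) (b : τ.W → τ.W → R.W), (σ : Gam) ∉ H' ∧ IsTensorMap b ∧
    (∀ (g : H) (h h' : H'), (g : Gam) = h → (h' : Gam) = σ * h * (σ : Gam)⁻¹ →
      ∀ u v, R.act g (b u v) = b (τ.act h u) (τ.act h' v)) ∧
    ∀ h : H', (h : Gam) = σ * σ → ∀ u v, R.act σ (b u v) = b v (τ.act h u)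

section fields

variable {F : Type} [Field F] (j : F →+* QQ) (K : Type) [Field K] [Algebra F K]

/-- `H` is the Galois group of the field `F` embedded in `ℚ̄` -/
def IsGal (H : Subgroup Gam) : Prop := ∀ g, g ∈ H ↔ ∀ x, g.app (j x) = j x

/-- the embeddings in `ℚ̄` of the extension `K` of `F` which extend the given embedding of `F` -/
def Emb : Type := {φ : K →+* QQ // ∀ x : F, φ (algebraMap F K x) = j x}

variable {K}

/-- `g` moves the embedding `φ` to `ψ`: `ψ` is the composite of `φ` and `g` -/
def Moves (g : Gam) (φ ψ : Emb j K) : Prop := ∀ x, ψ.1 x = g.app (φ.1 x)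

variable (K)

/-- `R` is the permutation representation of the Galois group `H` of `F` **on the functions with sum
zero on the set of the embeddings over `F` of `K`**; together with the trivial representation it is the
representation induced from the trivial representation of the Galois group of `K`. -/
def IsSumZeroRep {H : Subgroup Gam} (R : ArtinRep H) : Prop :=
  ∃ f : R.W → Emb j K → ℂ, IsLinearMap ℂ f ∧ Function.Injective f ∧
    (∀ y, y ∈ Set.range f ↔ ∑ᶠ φ, y φ = 0) ∧
    ∀ (g : H) (φ ψ : Emb j K), Moves j g φ ψ → ∀ w, f (R.act g w) ψ = f w φ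

end fields

section curves

variable {K : Type} [Field K] [NumberField K]

/-- `V v` is, for every `v`, an integral model of `E` with discriminant minimal at `v`. -/
def MinimalModels (E : WeierstrassCurve K) (V : HeightOneSpectrum (𝓞 K) → WeierstrassCurve (𝓞 K)) :
    Prop :=
  ∀ v : HeightOneSpectrum (𝓞 K),
    (∃ C : WeierstrassCurve.VariableChange K, C • E = (V v).map (algebraMap (𝓞 K) K)) ∧
    ∀ W : WeierstrassCurve (𝓞 K),
      (∃ C : WeierstrassCurve.VariableChange K, C • E = W.map (algebraMap (𝓞 K) K)) →
        ∀ n : ℕ, (V v).Δ ∈ v.asIdeal ^ n → W.Δ ∈ v.asIdeal ^ n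

/-- the number of the affine points of the reduction of `W` at `v` -/
noncomputable def points (W : WeierstrassCurve (𝓞 K)) (v : HeightOneSpectrum (𝓞 K)) : ℕ :=
  Nat.card {p : (𝓞 K ⧸ v.asIdeal) × (𝓞 K ⧸ v.asIdeal) //
    (W.map (Ideal.Quotient.mk v.asIdeal)).toAffine.Equation p.1 p.2}

/-- the norm of `v` -/
noncomputable def nrm (v : HeightOneSpectrum (𝓞 K)) : ℂ := (Ideal.absNorm v.asIdeal : ℕ)

open Classical in
/-- the Euler factor at `v`: the inverse of `1 - a q⁻ˢ + q^(1 - 2s)` if the reduction is good and of
`1 - a q⁻ˢ` if it is bad, where `a` is `q` minus the number of affine points of the reduction of the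
model minimal at `v` (`1`, `-1` or `0` for split multiplicative, non-split multiplicative or additive
reduction) -/
noncomputable def eulerFactor (W : WeierstrassCurve (𝓞 K)) (v : HeightOneSpectrum (𝓞 K)) (s : ℂ) : ℂ :=
  (1 - (nrm v - points W v) * nrm v ^ (-s)
    + (if W.Δ ∈ v.asIdeal then 0 else nrm v ^ (1 - 2 * s)))⁻¹

/-- `L` is the Euler product of `E` over `K` for `Re s > 3/2` -/
def IsEulerProduct (E : WeierstrassCurve K) (L : ℂ → ℂ) : Prop :=
  ∀ V : HeightOneSpectrum (𝓞 K) → WeierstrassCurve (𝓞 K), MinimalModels E V → ∀ s : ℂ,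
    3 / 2 < s.re → L s = ∏' v : HeightOneSpectrum (𝓞 K), eulerFactor (V v) v s

end curves

/-- the factor `A^(-s/2) ((2π)ˢ / Γ(s))ⁿ` -/
noncomputable def archFactor (A : ℂ) (n : ℕ) (s : ℂ) : ℂ :=
  A ^ (-s / 2) * ((2 * Real.pi : ℂ) ^ s * (Complex.Gamma s)⁻¹) ^ n

/-- **The Hasse-Weil conjecture for the rational elliptic curve `E` over the number field `K`**: the
Euler product has a continuation `L` which is entire, the completed function
`Λ(s) = A^(s/2) ((2π)⁻ˢ Γ(s))ⁿ L(s)` is entire as well, and `Λ(s) = w Λ(2 - s)`; here `N` is the norm of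
the conductor of `E` over `K`, `A = |Disc K|² N`, `n` is the degree and `w` is the root number. -/
def HasseWeil (E : WeierstrassCurve ℚ) (K : Type) [Field K] [NumberField K] (N : ℕ) (w : ℤ) : Prop :=
  ∃ L Λ : ℂ → ℂ, Differentiable ℂ L ∧ Differentiable ℂ Λ ∧
    IsEulerProduct (E.map (algebraMap ℚ K)) L ∧
    (∀ s, L s = Λ s * archFactor (((NumberField.discr K) ^ 2 * N : ℤ) : ℂ) (Module.finrank ℚ K) s) ∧
    ∀ s, Λ s = w * Λ (2 - s)

/-! ## the known theorems -/

/-- a property of Artin representations (automorphy) -/
abbrev Property : Type 1 := ∀ H : Subgroup Gam, ArtinRep H → Prop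

/-- Langlands, Tunnell, Gelbart-Jacquet, Ramakrishnan: orthogonal representations of dimension at most
four with soluble image are automorphic. -/
def SolubleCase (Auto : Property) : Prop :=
  ∀ H : Subgroup Gam, IsNumberField H → ∀ R : ArtinRep H, R.dim ≤ 4 → R.Orthogonal →
    R.SolubleImage → Auto H R

/-- Khare-Wintenberger, Pilloni-Stroh, Sasaki: two-dimensional totally odd representations of totally
real fields are automorphic. -/
def OddCase (Auto : Property) : Prop :=
  ∀ H : Subgroup Gam, IsNumberField H → IsTotReal H → ∀ τ : ArtinRep H, τ.dim = 2 →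
    (∀ c : H, IsCC c → τ.det c = -1) → Auto H τ

/-- Ramakrishnan: the tensor product of two automorphic two-dimensional representations is
automorphic. -/
def TensorCase (Auto : Property) : Prop :=
  ∀ H : Subgroup Gam, IsNumberField H → ∀ τ τ' R : ArtinRep H, τ.dim = 2 → τ'.dim = 2 →
    Auto H τ → Auto H τ' → ArtinRep.IsTensor τ τ' R → Auto H R

/-- Krishnamurthy, Ramakrishnan: the Asai representation of an automorphic two-dimensional
representation of a quadratic extension is automorphic. -/
def AsaiCase (Auto : Property) : Prop :=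
  ∀ H H' : Subgroup Gam, H' ≤ H → IsNumberField H' → H'.relIndex H = 2 →
    ∀ (τ : ArtinRep H') (R : ArtinRep H), τ.dim = 2 → Auto H' τ → IsAsai τ R → Auto H R

/-- representations with an automorphic twist by a character of finite order are automorphic -/
def TwistCase (Auto : Property) : Prop :=
  ∀ (H : Subgroup Gam) (ψ : H →* ℂ) (R S : ArtinRep H), IsNumberField H → IsChar ψ →
    R.IsTwist ψ S → Auto H S → Auto H R

/-- Tate's theorem on lifts and `SO(4) = (SL(2) × SL(2)) / ±1`: orthogonal representations of
dimension four with trivial determinant are tensor products. -/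
def TensorLifts : Prop :=
  ∀ H : Subgroup Gam, IsNumberField H → ∀ R : ArtinRep H, R.dim = 4 → R.Orthogonal →
    (∀ g, R.det g = 1) → ∃ τ τ' : ArtinRep H, τ.dim = 2 ∧ τ'.dim = 2 ∧ ArtinRep.IsTensor τ τ' R

/-- Tate's theorem on lifts and the structure of `O(4)` (Ramakrishnan): orthogonal representations of
dimension four with nontrivial determinant are twists of Asai representations of the quadratic
extension defined by the determinant. -/
def AsaiLifts : Prop :=
  ∀ H : Subgroup Gam, IsNumberField H → ∀ R : ArtinRep H, R.dim = 4 → R.Orthogonal →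
    (∃ g, R.det g ≠ 1) → ∃ H' : Subgroup Gam, H' ≤ H ∧
      (∀ g : H, (g : Gam) ∈ H' ↔ R.det g = 1) ∧
      ∃ (τ : ArtinRep H') (ψ : H →* ℂ) (S : ArtinRep H), τ.dim = 2 ∧ IsChar ψ ∧
        R.IsTwist ψ S ∧ IsAsai τ S

/-- a function of number fields -/
abbrev OfField (T : Type) : Type 1 := ∀ (K : Type) [Field K] [NumberField K], T

/-- Wiles, Taylor-Wiles, Breuil-Conrad-Diamond-Taylor (modularity of `E`), Dieulefait (base change of `E`
to the totally real field `F`), Rankin-Selberg theory (Jacquet, Piatetski-Shapiro, Shalika) and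
Artin's formalism: if the representation of the Galois group `H` of `F` on the functions with sum zero on
the embeddings of `K` is automorphic, then the Hasse-Weil conjecture holds for `E` over `K`. -/
def BaseCase (Auto : Property) (E : WeierstrassCurve ℚ) (N : OfField ℕ) (w : OfField ℤ) : Prop :=
  ∀ (F : Type) [Field F] [NumberField F] [IsTotallyReal F] (j : F →+* QQ) (K : Type) [Field K]
    [NumberField K] [Algebra F K] (H : Subgroup Gam) (R : ArtinRep H), IsGal j H →
    IsSumZeroRep j K R → Auto H R → HasseWeil E K (N K) (w K)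

/-- Dieulefait: base change to totally real fields. -/
def TotallyRealCase (E : WeierstrassCurve ℚ) (N : OfField ℕ) (w : OfField ℤ) : Prop :=
  ∀ (K : Type) [Field K] [NumberField K] [IsTotallyReal K], HasseWeil E K (N K) (w K)

/-- **The known theorems.** `Auto` is the automorphy of Artin representations of number fields
(of their isobaric representations, matching at all places), `N` and `w` are the norm of the conductor
and the root number of `E` over `K`. -/
structure Known (E : WeierstrassCurve ℚ) (Auto : Property) (N : OfField ℕ) (w : OfField ℤ) :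
    Prop where
  soluble : SolubleCase Auto
  odd : OddCase Auto
  tensor : TensorCase Auto
  asai : AsaiCase Auto
  twist : TwistCase Auto
  tensorLifts : TensorLifts
  asaiLifts : AsaiLifts
  base : BaseCase Auto E N w
  totallyReal : TotallyRealCase E N w

/-- **The sign condition**: every real place of `F` has exactly one real place of `K` above it. -/
def OneReal (F K : Type) [Field F] [Field K] [Algebra F K] : Prop :=
  ∀ φ₀ : F →+* ℂ, ∃! φ : K →+* ℂ, φ.comp (algebraMap F K) = φ₀ ∧ ComplexEmbedding.IsReal φ

/-- the Galois group of the Galois closure of `K / F` is soluble: for any embedding `j` of `F` in `ℚ̄`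
some term of the derived series of the Galois group `H` of `F` fixes all embeddings of `K` over `F` -/
def SolubleClosure (F K : Type) [Field F] [Field K] [Algebra F K] : Prop :=
  ∀ (j : F →+* QQ) (H : Subgroup Gam), IsGal j H →
    ∃ n, ∀ g ∈ derivedSeries H n, ∀ φ : Emb j K, Moves j g φ φ

/-- **The case of extensions of degree at most five of totally real fields.** -/
def OverTotallyReal (E : WeierstrassCurve ℚ) (N : OfField ℕ) (w : OfField ℤ) : Prop :=
  ∀ (F : Type) [Field F] [NumberField F] [IsTotallyReal F] (K : Type) [Field K]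
    [NumberField K] [Algebra F K], Module.finrank F K ≤ 5 →
    (Module.finrank F K = 5 → OneReal F K ∨ IsTotallyReal K ∨ SolubleClosure F K) →
    HasseWeil E K (N K) (w K)

/-- **The case of number fields of degree at most five**, without the quintic fields with exactly
three real embeddings. -/
def DegreeAtMostFive (E : WeierstrassCurve ℚ) (N : OfField ℕ) (w : OfField ℤ) : Prop :=
  ∀ (K : Type) [Field K] [NumberField K], Module.finrank ℚ K ≤ 5 →
    ¬ (Module.finrank ℚ K = 5 ∧ InfinitePlace.nrRealPlaces K = 3) → HasseWeil E K (N K) (w K)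

end Pool.Agent.V7H2.HW
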