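import Mathlib

/-!
# Permutation groups of degree at most five
-/

set_option autoImplicit false

namespace Pool.Agent.V7H2.HW

open Equiv Equiv.Perm

set_option maxRecDepth 100000 in
theorem key1 : ∀ g : Perm (Fin 5), (∃ k : Fin 5, g * finRotate 5 = finRotate 5 ^ (k : ℕ) * g) ∨
    ∃ j : Fin 5, (finRotate 5 * (g * finRotate 5 ^ (j : ℕ) * g⁻¹)) ^ 3 = 1 ∧
      finRotate 5 * (g * finRotate 5 ^ (j : ℕ) * g⁻¹) ≠ 1 := by
  decide

set_option maxRecDepth 100000 in
theorem key2 : ∀ g : Perm (Fin 5), g * finRotate 5 = finRotate 5 * g →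
    ∃ k : Fin 5, g = finRotate 5 ^ (k : ℕ) := by
  decide

set_option maxRecDepth 100000 in
theorem key3 : ∀ a b : Perm (Fin 4), sign a = 1 → sign b = 1 →
    (a * b * a⁻¹ * b⁻¹) * (a * b * a⁻¹ * b⁻¹) = 1 := by
  decide

set_option maxRecDepth 100000 in
theorem key4 : ∀ a b : Perm (Fin 4), sign a = 1 → sign b = 1 → a * a = 1 → b * b = 1 →
    a * b = b * a := by
  decide

/-- a group whose commutators lie in a commutative subgroup is soluble -/
theorem solvable_of_commutators {G : Type*} [Group G] (N : Subgroup G)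
    (hN : ∀ a ∈ N, ∀ b ∈ N, a * b = b * a) (h : ∀ a b : G, a * b * a⁻¹ * b⁻¹ ∈ N) :
    Group.IsSolvable G := by
  have h1 : commutator G ≤ N := by
    rw [commutator_def, Subgroup.commutator_le]
    intro a _ b _
    exact h a b
  have : Group.IsSolvable (commutator G) := Group.isSolvable_of_comm fun a b =>
    Subtype.ext (hN a (h1 a.2) b (h1 b.2))
  have : Group.IsSolvable (Abelianization G) := Group.isSolvable_of_comm fun a b => mul_comm a b
  refine Group.isSolvable_of_ker_le_range (commutator G).subtype (Abelianization.of) ?_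
  rw [Abelianization.ker_of, Subgroup.range_subtype]

theorem solvable_four : Group.IsSolvable (Perm (Fin 4)) := by
  have : Group.IsSolvable (sign (α := Fin 4)).ker := by
    refine solvable_of_commutators
      { carrier := {a | (a : Perm (Fin 4)) * a = 1}
        mul_mem' := fun {a b} ha hb => ?_
        one_mem' := by simp
        inv_mem' := fun {a} ha => ?_ } ?_ ?_
    · have ha1 : (a : Perm (Fin 4)) * a = 1 := ha
      have hb1 : (b : Perm (Fin 4)) * b = 1 := hb
      have hc := key4 a b a.2 b.2 ha1 hb1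
      change (a * b : Perm (Fin 4)) * (a * b : Perm (Fin 4)) = 1
      calc (a * b : Perm (Fin 4)) * (a * b : Perm (Fin 4))
          = a * (b * a) * b := by group
        _ = a * (a * b) * b := by rw [hc]
        _ = (a * a) * (b * b) := by group
        _ = 1 := by rw [ha1, hb1, one_mul]
    · have ha1 : (a : Perm (Fin 4)) * a = 1 := ha
      change ((a : Perm (Fin 4)))⁻¹ * ((a : Perm (Fin 4)))⁻¹ = 1
      rw [← mul_inv_rev, ha1, inv_one]
    · intro a ha b hb
      exact Subtype.ext (key4 a b a.2 b.2 ha hb)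
    · intro a b
      exact key3 a b a.2 b.2
  exact Group.isSolvable_of_ker_le_range (sign (α := Fin 4)).ker.subtype (sign (α := Fin 4))
    (by rw [Subgroup.range_subtype])

/-- permutation groups of degree at most four are soluble -/
theorem solvable_le_four {X : Type} [Fintype X] (h : Fintype.card X ≤ 4) :
    Group.IsSolvable (Perm X) := by
  classical
  obtain ⟨f⟩ : Nonempty (X ↪ Fin 4) := by
    rw [Function.Embedding.nonempty_iff_card_le]
    simpa using h
  have := solvable_four
  exact Group.isSolvable_of_isSolvable_injective (f := viaEmbeddingHom f)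
    (viaEmbeddingHom_injective f)

theorem solvable_subgroup {G : Type*} [Group G] [Group.IsSolvable G] (H : Subgroup G) :
    Group.IsSolvable H :=
  Group.isSolvable_of_isSolvable_injective (f := H.subtype) H.subtype_injective

/-- **The dichotomy in degree five.** -/
theorem dichotomy {X : Type} [Fintype X] [DecidableEq X] (hX : Fintype.card X = 5)
    (H : Subgroup (Perm X)) [MulAction.IsPretransitive H X] :
    Group.IsSolvable H ∨ alternatingGroup X ≤ H := by
  by_cases h3 : ∃ g ∈ H, g.IsThreeCycle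
  · right
    obtain ⟨g, hg, h3⟩ := h3
    refine alternatingGroup_le_of_isPreprimitive_of_isThreeCycle_mem ?_ h3 hg
    exact MulAction.IsPreprimitive.of_prime_card (by rw [Nat.card_eq_fintype_card, hX]; norm_num)
  left
  push Not at h3
  -- an element of order five
  obtain ⟨x⟩ : Nonempty X := by rw [← Fintype.card_pos_iff, hX]; norm_num
  have hdvd : 5 ∣ Nat.card H := by
    have h1 := MulAction.index_stabilizer_of_transitive H x
    have h2 : (MulAction.stabilizer H x).index = 5 := by
      rw [h1, Nat.card_eq_fintype_card, hX]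
    rw [← h2]
    exact Subgroup.index_dvd_card _
  have : Fact (Nat.Prime 5) := ⟨by norm_num⟩
  obtain ⟨σ, hσ⟩ := exists_prime_orderOf_dvd_card' 5 hdvd
  have hσ' : orderOf (σ : Perm X) = 5 := by rw [Subgroup.orderOf_coe, hσ]
  have hcyc : (σ : Perm X).IsCycle := isCycle_of_prime_order'' (by rw [hX]; norm_num)
    (by rw [hσ', hX])
  have hsupp : (σ : Perm X).support.card = 5 := by rw [← hcyc.orderOf, hσ']
  -- an isomorphism with `Perm (Fin 5)` which carries `σ` to the rotation
  let e₀ : X ≃ Fin 5 := Fintype.equivFinOfCardEq hX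
  let f : Perm X ≃* Perm (Fin 5) := e₀.permCongrHom
  have hfo : orderOf (f (σ : Perm X)) = 5 := by rw [MulEquiv.orderOf_eq, hσ']
  have hfc : (f (σ : Perm X)).IsCycle := isCycle_of_prime_order'' (by simp; norm_num)
    (by rw [hfo]; simp)
  have hconj : IsConj (f (σ : Perm X)) (finRotate 5) := by
    rw [isConj_iff_cycleType_eq, hfc.cycleType, ← hfc.orderOf, hfo, cycleType_finRotate]
  obtain ⟨c, hc⟩ := isConj_iff.1 hconj
  let F : Perm X ≃* Perm (Fin 5) := f.trans (MulAut.conj c)
  have hF : F (σ : Perm X) = finRotate 5 := hc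
  -- the elements normalise the rotation group
  have hnorm : ∀ g ∈ H, ∃ k : ℕ, F g * finRotate 5 = finRotate 5 ^ k * F g := by
    intro g hg
    rcases key1 (F g) with ⟨k, hk⟩ | ⟨j, hj1, hj2⟩
    · exact ⟨k, hk⟩
    exfalso
    let y : Perm X := (σ : Perm X) * (g * (σ : Perm X) ^ (j : ℕ) * g⁻¹)
    have hy : F y = finRotate 5 * (F g * finRotate 5 ^ (j : ℕ) * (F g)⁻¹) := by
      simp only [y, map_mul, map_pow, map_inv, hF]
    have hyH : y ∈ H := H.mul_mem σ.2 (H.mul_mem (H.mul_mem hg (H.pow_mem σ.2 _)) (H.inv_mem hg))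
    have hy3 : orderOf y = 3 := by
      refine orderOf_eq_prime ?_ ?_
      · apply F.injective
        rw [map_pow, hy, hj1, map_one]
      · intro h1
        apply hj2
        rw [← hy, h1, map_one]
    have hyc : y.IsCycle := isCycle_of_prime_order' (by rw [hy3]; norm_num)
      (by rw [hy3, hX]; norm_num)
    refine h3 y hyH ?_
    rw [← card_support_eq_three_iff, ← hyc.orderOf, hy3]
  refine solvable_of_commutators
    { carrier := {a : H | ∃ k : ℤ, F (a : Perm X) = finRotate 5 ^ k}
      mul_mem' := fun {a b} ha hb => ?_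
      one_mem' := ⟨0, by simp⟩
      inv_mem' := fun {a} ha => ?_ } ?_ ?_
  · obtain ⟨k, hk⟩ := ha
    obtain ⟨l, hl⟩ := hb
    refine ⟨k + l, ?_⟩
    rw [Subgroup.coe_mul, map_mul, hk, hl, zpow_add]
  · obtain ⟨k, hk⟩ := ha
    refine ⟨-k, ?_⟩
    rw [Subgroup.coe_inv, map_inv, hk, zpow_neg]
  · rintro a ⟨k, hk⟩ b ⟨l, hl⟩
    apply Subtype.ext
    apply F.injective
    rw [Subgroup.coe_mul, Subgroup.coe_mul, map_mul, map_mul, hk, hl, ← zpow_add, ← zpow_add,
      add_comm]
  · intro a b
    -- the commutator commutes with the rotation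
    set A : Perm (Fin 5) := F (a : Perm X)⁻¹ with hA
    set B : Perm (Fin 5) := F (b : Perm X)⁻¹ with hB
    obtain ⟨k, hk⟩ := hnorm (a : Perm X)⁻¹ (H.inv_mem a.2)
    obtain ⟨l, hl⟩ := hnorm (b : Perm X)⁻¹ (H.inv_mem b.2)
    rw [← hA] at hk
    rw [← hB] at hl
    have e1 : ∀ j : ℕ, A * finRotate 5 ^ j = finRotate 5 ^ (k * j) * A := by
      intro j
      induction j with
      | zero => simp
      | succ j ih =>
        rw [pow_succ, ← mul_assoc, ih, mul_assoc, hk, ← mul_assoc, ← pow_add, Nat.mul_succ]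
    have e2 : ∀ j : ℕ, B * finRotate 5 ^ j = finRotate 5 ^ (l * j) * B := by
      intro j
      induction j with
      | zero => simp
      | succ j ih =>
        rw [pow_succ, ← mul_assoc, ih, mul_assoc, hl, ← mul_assoc, ← pow_add, Nat.mul_succ]
    have e3 : A * B * finRotate 5 = finRotate 5 ^ (k * l) * (A * B) := by
      rw [mul_assoc, hl, ← mul_assoc, e1, mul_assoc]
    have e4 : B * A * finRotate 5 = finRotate 5 ^ (k * l) * (B * A) := by
      rw [mul_assoc, hk, ← mul_assoc, e2, mul_assoc, mul_comm l k]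
    have e5 : (B * A)⁻¹ * (A * B) * finRotate 5 = finRotate 5 * ((B * A)⁻¹ * (A * B)) := by
      have e6 : (B * A)⁻¹ * finRotate 5 ^ (k * l) = finRotate 5 * (B * A)⁻¹ := by
        rw [inv_mul_eq_iff_eq_mul, ← mul_assoc, eq_mul_inv_iff_mul_eq, e4]
      rw [mul_assoc, e3, ← mul_assoc, e6, mul_assoc]
    obtain ⟨m, hm⟩ := key2 _ e5
    refine ⟨m, ?_⟩
    have e7 : F ((a * b * a⁻¹ * b⁻¹ : H) : Perm X) = (B * A)⁻¹ * (A * B) := by
      simp only [Subgroup.coe_mul, Subgroup.coe_inv, map_mul, map_inv, hA, hB]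
      group
    rw [e7, hm, zpow_natCast]

end Pool.Agent.V7H2.HW
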