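import Pool.Agent.V7H2.HW.Rep

/-!
# The factors of the lift are not scalar at a double transposition
-/

set_option autoImplicit false
set_option linter.unusedSectionVars false

namespace Pool.Agent.V7H2.HW

open Equiv Equiv.Perm

variable {U V : Type} [AddCommGroup U] [Module ℂ U] [AddCommGroup V] [Module ℂ V]
  [FiniteDimensional ℂ U] [FiniteDimensional ℂ V]

/-- if `A ⊗ 1` is a scalar, `A` is a scalar -/
theorem scalar_of_map [Nontrivial V] (A : Module.End ℂ U) (b : ℂ)
    (h : ∀ (u : U) (v : V), A u ⊗ₜ[ℂ] v = b • (u ⊗ₜ[ℂ] v)) : A = b • 1 := by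
  obtain ⟨v, hv⟩ := exists_ne (0 : V)
  obtain ⟨f, hf⟩ : ∃ f : Module.Dual ℂ V, f v ≠ 0 := by
    by_contra hcon
    push Not at hcon
    exact hv ((Module.forall_dual_apply_eq_zero_iff ℂ v).1 hcon)
  apply LinearMap.ext
  intro u
  have h1 := congrArg (TensorProduct.lift ((LinearMap.lsmul ℂ U).flip.compl₂ f)) (h u v)
  rw [map_smul] at h1
  simp only [TensorProduct.lift.tmul, LinearMap.compl₂_apply, LinearMap.flip_apply,
    LinearMap.lsmul_apply] at h1
  have h2 : f v • (A u - b • u) = 0 := by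
    rw [smul_sub, h1, smul_comm, sub_self]
  have h3 := (smul_eq_zero.1 h2).resolve_left hf
  exact sub_eq_zero.1 h3

/-- a space of dimension two has endomorphisms which are not scalars -/
theorem exists_not_scalar (h2 : Module.finrank ℂ U = 2) :
    ∃ A : Module.End ℂ U, ∀ b : ℂ, A ≠ b • 1 := by
  let e := Module.finBasisOfFinrankEq ℂ U h2
  refine ⟨e.constr ℂ ![e 0, 0], fun b hb => ?_⟩
  have h0 : (e.constr ℂ ![e 0, 0]) (e 0) = e 0 := by rw [e.constr_basis]; rfl
  have h1 : (e.constr ℂ ![e 0, 0]) (e 1) = 0 := by rw [e.constr_basis]; rfl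
  rw [hb] at h0 h1
  have h3 : b • e 0 = e 0 := h0
  have h4 : b • e 1 = 0 := h1
  have hb0 : b = 0 := (smul_eq_zero.1 h4).resolve_right (e.ne_zero 1)
  rw [hb0, zero_smul] at h3
  exact e.ne_zero 0 h3.symm

/-- an involution of a plane which is not a scalar has determinant `-1` -/
theorem det_neg_one (h2 : Module.finrank ℂ U = 2) (A : Module.End ℂ U) (hA : A * A = 1)
    (hs : ∀ b : ℂ, A ≠ b • 1) : LinearMap.det A = -1 := by
  let e := Module.finBasisOfFinrankEq ℂ U h2
  set M := LinearMap.toMatrix e e A with hM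
  have hdet : LinearMap.det A = M.det := (LinearMap.det_toMatrix e A).symm
  have hMM : M * M = 1 := by
    rw [hM, ← LinearMap.toMatrix_mul, hA, LinearMap.toMatrix_one]
  have hMs : ∀ b : ℂ, M ≠ b • 1 := by
    intro b hb
    apply hs b
    apply (LinearMap.toMatrix e e).injective
    rw [← hM, hb, map_smul, LinearMap.toMatrix_one]
  -- Cayley-Hamilton
  have hCH : M * M - M.trace • M + M.det • (1 : Matrix (Fin 2) (Fin 2) ℂ) = 0 := by
    have := Matrix.aeval_self_charpoly M
    rw [Matrix.charpoly_fin_two] at this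
    simp only [map_add, map_sub, map_mul, map_pow, Polynomial.aeval_X, Polynomial.aeval_C] at this
    rw [pow_two, Algebra.algebraMap_eq_smul_one, Algebra.algebraMap_eq_smul_one, smul_mul_assoc,
      one_mul] at this
    exact this
  rw [hMM] at hCH
  have htr : M.trace = 0 := by
    by_contra h
    apply hMs ((1 + M.det) / M.trace)
    have h3 : M.trace • M = (1 + M.det) • (1 : Matrix (Fin 2) (Fin 2) ℂ) := by
      rw [add_smul, one_smul]
      have := hCH
      rw [sub_add_eq_add_sub, sub_eq_zero] at this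
      exact this.symm
    rw [div_eq_mul_inv, mul_comm, mul_smul, ← h3, smul_smul, inv_mul_cancel₀ h, one_smul]
  rw [htr, zero_smul, sub_zero] at hCH
  have h4 := congrFun (congrFun hCH 0) 0
  simp only [Matrix.add_apply, Matrix.smul_apply, Matrix.one_apply_eq, smul_eq_mul, mul_one,
    Matrix.zero_apply] at h4
  rw [hdet]
  linear_combination h4

/-- **The factors of a lift are not scalar at even permutations.** -/
theorem not_scalar {X : Type} [Fintype X] [DecidableEq X] (hX : Fintype.card X = 5)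
    {G : Type} [Group G] (π : G →* Perm X) (τ : G →* Module.End ℂ U) (τ' : G →* Module.End ℂ V)
    (ψ : G → ℂ) (hψ : ∀ g, ψ g ≠ 0) (e : TensorProduct ℂ U V ≃ₗ[ℂ] SumZero X)
    (he : ∀ (g : G) (u : U) (v : V), ψ g • rho0 X (π g) (e (u ⊗ₜ[ℂ] v)) =
      e (τ g u ⊗ₜ[ℂ] τ' g v))
    (hA : alternatingGroup X ≤ π.range) (h2 : Module.finrank ℂ U = 2)
    (hV : Nontrivial V) (c : G) (hc : π c ∈ alternatingGroup X) (hc1 : π c ≠ 1) (a : ℂ) :
    τ c ≠ a • 1 := by
  intro hca
  have : Nontrivial U := Module.nontrivial_of_finrank_pos (R := ℂ) (by rw [h2]; norm_num)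
  -- the elements for which `τ` is a scalar
  have hne : ∀ (g : G) (b : ℂ), τ g = b • 1 → b ≠ 0 := by
    rintro g b hg rfl
    have h3 : τ g * τ g⁻¹ = 1 := by rw [← map_mul, mul_inv_cancel, map_one]
    rw [hg, zero_smul, zero_mul] at h3
    exact zero_ne_one h3
  let P : Subgroup G :=
    { carrier := {g | ∃ b : ℂ, τ g = b • 1}
      mul_mem' := by
        rintro g h ⟨b, hb⟩ ⟨b', hb'⟩
        refine ⟨b * b', ?_⟩
        rw [map_mul, hb, hb', smul_mul_smul_comm, one_mul]
      one_mem' := ⟨1, by rw [map_one, one_smul]⟩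
      inv_mem' := by
        rintro g ⟨b, hb⟩
        refine ⟨b⁻¹, ?_⟩
        have hb0 := hne g b hb
        have h3 : τ g * τ g⁻¹ = 1 := by rw [← map_mul, mul_inv_cancel, map_one]
        rw [hb, smul_mul_assoc, one_mul] at h3
        rw [← h3, smul_smul, inv_mul_cancel₀ hb0, one_smul] }
  have hPn : ∀ g ∈ P, ∀ h : G, h * g * h⁻¹ ∈ P := by
    rintro g ⟨b, hb⟩ h
    refine ⟨b, ?_⟩
    have h3 : τ h * τ h⁻¹ = 1 := by rw [← map_mul, mul_inv_cancel, map_one]
    rw [map_mul, map_mul, hb, mul_smul_comm, mul_one, smul_mul_assoc, h3]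
  -- the image in the alternating group
  let N : Subgroup (alternatingGroup X) := (P.map π).comap (alternatingGroup X).subtype
  have hNn : N.Normal := by
    constructor
    rintro ⟨p, hp⟩ ⟨g, hg, hgp⟩ ⟨q, hq⟩
    obtain ⟨h, hh⟩ := hA hq
    refine ⟨h * g * h⁻¹, hPn g hg h, ?_⟩
    rw [map_mul, map_mul, map_inv, hgp, hh]
    rfl
  have : IsSimpleGroup (alternatingGroup X) :=
    alternatingGroup.isSimpleGroup (by rw [Nat.card_eq_fintype_card, hX])
  have hN : N = ⊤ := by
    rcases hNn.eq_bot_or_eq_top with h3 | h3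
    · exfalso
      have h4 : (⟨π c, hc⟩ : alternatingGroup X) ∈ N := ⟨c, ⟨a, hca⟩, rfl⟩
      rw [h3, Subgroup.mem_bot] at h4
      exact hc1 (congrArg Subtype.val h4)
    · exact h3
  -- all `A ⊗ 1` commute with the alternating group
  have hcomm : ∀ A : Module.End ℂ U, ∃ b : ℂ, A = b • 1 := by
    intro A
    let T : Module.End ℂ (SumZero X) :=
      e.toLinearMap.comp ((TensorProduct.map A LinearMap.id).comp e.symm.toLinearMap)
    obtain ⟨b, hb⟩ := commutant hX T (by
      intro p hp v
      have h3 : (⟨p, hp⟩ : alternatingGroup X) ∈ N := by rw [hN]; trivial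
      obtain ⟨g, ⟨b, hb⟩, hgp⟩ := h3
      have hgp' : π g = p := hgp
      -- check on the image of `e`
      obtain ⟨t, rfl⟩ := e.surjective v
      have h4 : ψ g • T (rho0 X p (e t)) = ψ g • rho0 X p (T (e t)) := by
        rw [← map_smul T, ← hgp']
        induction t using TensorProduct.induction_on with
        | zero => simp
        | tmul u v =>
          rw [he]
          change e (TensorProduct.map A LinearMap.id (e.symm (e (τ g u ⊗ₜ[ℂ] τ' g v)))) =
            ψ g • rho0 X (π g) (e (TensorProduct.map A LinearMap.id (e.symm (e (u ⊗ₜ[ℂ] v)))))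
          rw [LinearEquiv.symm_apply_apply, LinearEquiv.symm_apply_apply, TensorProduct.map_tmul,
            TensorProduct.map_tmul, he, hb]
          change e (A (b • u) ⊗ₜ[ℂ] τ' g v) = e ((b • A u) ⊗ₜ[ℂ] τ' g v)
          rw [map_smul]
        | add x y hx hy =>
          rw [map_add, map_add, smul_add, map_add, hx, hy, map_add, map_add, smul_add]
      have h5 := smul_right_injective _ (hψ g) h4
      exact h5)
    refine ⟨b, scalar_of_map (V := V) A b fun u v => ?_⟩
    apply e.injective
    have h3 := LinearMap.congr_fun hb (e (u ⊗ₜ[ℂ] v))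
    change e (TensorProduct.map A LinearMap.id (e.symm (e (u ⊗ₜ[ℂ] v)))) = b • e (u ⊗ₜ[ℂ] v) at h3
    rw [LinearEquiv.symm_apply_apply, TensorProduct.map_tmul, LinearMap.id_apply] at h3
    rw [h3, map_smul]
  obtain ⟨A, hA'⟩ := exists_not_scalar (U := U) h2
  obtain ⟨b, hb⟩ := hcomm A
  exact hA' b hb

end Pool.Agent.V7H2.HW
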