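import Pool.Agent.V7H2.HW.Defs
import Pool.Agent.V7H2.HW.Lift

/-!
# The Hasse-Weil conjecture over extensions of degree at most five of totally real fields
-/

set_option autoImplicit false
set_option linter.unusedSectionVars false

namespace Pool.Agent.V7H2.HW

open NumberField Equiv Equiv.Perm

/-! ## the Galois group of a field and its action on the embeddings -/

theorem Gam.ext {g h : Gam} (H : ∀ x, g.app x = h.app x) : g = h :=
  RingEquiv.ext (f := (g : QQ ≃+* QQ)) (g := (h : QQ ≃+* QQ)) H

theorem Gam.mul_app (g h : Gam) (x : QQ) : (g * h).app x = g.app (h.app x) := rfl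

theorem Gam.one_app (x : QQ) : (1 : Gam).app x = x := rfl

theorem Gam.inv_app_app (g : Gam) (x : QQ) : g⁻¹.app (g.app x) = x := by
  rw [← Gam.mul_app, inv_mul_cancel, Gam.one_app]

/-- as a homomorphism -/
noncomputable def Gam.hom (g : Gam) : QQ →+* QQ := ((show QQ ≃+* QQ from g) : QQ →+* QQ)

theorem Gam.hom_apply (g : Gam) (x : QQ) : g.hom x = g.app x := rfl

section fields

variable {F : Type} [Field F] (j : F →+* QQ) (K : Type) [Field K] [Algebra F K]

/-- the Galois group of the field `F` embedded in `ℚ̄` -/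
def gal : Subgroup Gam where
  carrier := {g | ∀ x, g.app (j x) = j x}
  mul_mem' := fun {g h} hg hh x => by
    change g.app (h.app (j x)) = j x
    rw [hh x, hg x]
  one_mem' := fun _ => rfl
  inv_mem' := fun {g} hg x => by
    have h1 : g⁻¹.app (g.app (j x)) = j x := Gam.inv_app_app g _
    rwa [hg x] at h1

theorem isGal_gal : IsGal j (gal j) := fun _ => Iff.rfl

/-- composition with an element of the Galois group -/
noncomputable def comp (g : gal j) (φ : Emb j K) : Emb j K :=
  ⟨((show QQ ≃+* QQ from (g : Gam)) : QQ →+* QQ).comp φ.1, fun x => by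
    change (g : Gam).app (φ.1 (algebraMap F K x)) = j x
    rw [φ.2 x]
    exact g.2 x⟩

theorem comp_mul (g h : gal j) (φ : Emb j K) : comp j K (g * h) φ = comp j K g (comp j K h φ) := rfl

theorem comp_one (φ : Emb j K) : comp j K 1 φ = φ := rfl

/-- the action of the Galois group of `F` on the embeddings of `K` -/
noncomputable def perm : gal j →* Equiv.Perm (Emb j K) where
  toFun g :=
    { toFun := comp j K g
      invFun := comp j K g⁻¹
      left_inv := fun _ => by rw [← comp_mul, inv_mul_cancel, comp_one]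
      right_inv := fun _ => by rw [← comp_mul, mul_inv_cancel, comp_one] }
  map_one' := rfl
  map_mul' g h := rfl

variable {K}

theorem moves_iff (g : gal j) (φ ψ : Emb j K) : Moves j (g : Gam) φ ψ ↔ ψ = perm j K g φ := by
  constructor
  · intro h
    apply Subtype.ext
    ext x
    exact h x
  · rintro rfl x
    rfl

end fields

/-! ### characteristic zero and finiteness -/

instance : CharZero QQ := inferInstanceAs (CharZero (AlgebraicClosure ℚ))

section fields

variable {F : Type} [Field F] (j : F →+* QQ) (K : Type) [Field K] [NumberField K] [Algebra F K]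

instance : Finite (Emb j K) := inferInstanceAs (Finite {φ : K →+* QQ // _})

noncomputable instance : Fintype (Emb j K) := Fintype.ofFinite _

/-- the images of a basis of `K` under all embeddings -/
theorem exists_finset : ∃ S : Finset QQ, ∀ g : gal j, Fixes S g → perm j K g = 1 := by
  classical
  let b := Module.finBasis ℚ K
  refine ⟨Finset.univ.image fun p : Emb j K × Fin _ => p.1.1 (b p.2), fun g hg => ?_⟩
  ext1 φ
  apply Subtype.ext
  have h1 : ∀ i, (g : Gam).app (φ.1 (b i)) = φ.1 (b i) := fun i =>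
    hg _ (Finset.mem_image.2 ⟨(φ, i), Finset.mem_univ _, rfl⟩)
  let f : K →+* QQ := (comp j K g φ).1
  change f = φ.1
  have h2 : (f.toRatAlgHom : K →ₐ[ℚ] QQ).toLinearMap = (φ.1.toRatAlgHom : K →ₐ[ℚ] QQ).toLinearMap :=
    b.ext h1
  ext x
  exact LinearMap.congr_fun h2 x

/-- **The representation of the Galois group of `F` on the functions with sum zero on the set of the
embeddings over `F` of `K`** -/
noncomputable def permRep : ArtinRep (gal j) where
  W := SumZero (Emb j K)
  ρ := (rho0 (Emb j K)).comp (perm j K)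
  artin := by
    obtain ⟨S, hS⟩ := exists_finset j K
    exact ⟨S, fun g hg => by rw [MonoidHom.comp_apply, hS g hg, map_one]⟩

theorem isSumZeroRep_permRep : IsSumZeroRep j K (permRep j K) := by
  refine ⟨fun w => w.1, ⟨fun _ _ => rfl, fun _ _ => rfl⟩, Subtype.val_injective, fun y => ?_, ?_⟩
  · rw [finsum_eq_sum_of_fintype]
    constructor
    · rintro ⟨w, rfl⟩
      exact w.2
    · intro h
      exact ⟨⟨y, h⟩, rfl⟩
  · intro g φ ψ h w
    rw [moves_iff] at h
    subst h
    change w.1 ((perm j K g)⁻¹ (perm j K g φ)) = w.1 φ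
    exact congrArg w.1 ((perm j K g).symm_apply_apply φ)

end fields

/-- soluble quotients and the derived series -/
theorem exists_derived {G G' : Type*} [Group G] [Group G'] (f : G →* G')
    (h : Group.IsSolvable f.range) : ∃ n, ∀ g ∈ derivedSeries G n, f g = 1 := by
  obtain ⟨n, hn⟩ := h.solvable
  refine ⟨n, fun g hg => ?_⟩
  have h1 : f.rangeRestrict g ∈ derivedSeries f.range n := by
    rw [← map_derivedSeries_eq f.rangeRestrict_surjective n]
    exact Subgroup.mem_map_of_mem _ hg
  rw [hn, Subgroup.mem_bot] at h1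
  exact congrArg Subtype.val h1

theorem solvable_of_derived {G G' : Type*} [Group G] [Group G'] (f : G →* G')
    (h : ∃ n, ∀ g ∈ derivedSeries G n, f g = 1) : Group.IsSolvable f.range := by
  obtain ⟨n, hn⟩ := h
  refine ⟨⟨n, ?_⟩⟩
  rw [← map_derivedSeries_eq f.rangeRestrict_surjective n, eq_bot_iff]
  rintro _ ⟨g, hg, rfl⟩
  rw [Subgroup.mem_bot]
  exact Subtype.ext (hn g hg)

/-! ## complex conjugations -/

theorem IsCC.sq {c : Gam} (h : IsCC c) : c * c = 1 := by
  obtain ⟨ι, hι⟩ := h
  apply Gam.ext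
  intro x
  rw [Gam.mul_app, Gam.one_app]
  refine ι.injective ?_
  exact ((hι _).trans (congrArg _ (hι x))).trans (starRingEnd_self_apply _)

section

variable {F : Type} [Field F] [NumberField F] (j : F →+* QQ)

theorem isNumberField_gal : IsNumberField (gal j) := by
  classical
  let b := Module.finBasis ℚ F
  refine ⟨Finset.univ.image fun i => j (b i), fun g hg => ?_⟩
  have h1 : ∀ i, g.app (j (b i)) = j (b i) := fun i =>
    hg _ (Finset.mem_image.2 ⟨i, Finset.mem_univ _, rfl⟩)
  let f : F →+* QQ := g.hom.comp j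
  have h2 : (f.toRatAlgHom : F →ₐ[ℚ] QQ).toLinearMap = (j.toRatAlgHom : F →ₐ[ℚ] QQ).toLinearMap :=
    b.ext h1
  intro x
  exact LinearMap.congr_fun h2 x

theorem totReal_gal [IsTotallyReal F] : IsTotReal (gal j) := by
  rintro c ⟨ι, hι⟩
  intro x
  let φ : F →+* ℂ := ι.comp j
  have hr : (InfinitePlace.mk φ).IsReal := IsTotallyReal.isReal _
  have hφ : ComplexEmbedding.IsReal φ := InfinitePlace.isReal_mk_iff.1 hr
  refine ι.injective ?_
  exact (hι (j x)).trans (RingHom.congr_fun hφ x)

end

theorem isAlgebraic_QQ : Algebra.IsAlgebraic ℚ QQ := by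
  constructor
  intro x
  obtain ⟨p, hp, hx⟩ := (AlgebraicClosure.isAlgebraic ℚ).isAlgebraic x
  refine ⟨p, hp, ?_⟩
  rw [Polynomial.aeval_def] at hx ⊢
  have h : (algebraMap ℚ QQ) = (show ℚ →+* QQ from algebraMap ℚ (AlgebraicClosure ℚ)) :=
    Subsingleton.elim _ _
  rw [h]
  exact hx

instance isAlgClosed_QQ : IsAlgClosed QQ := inferInstanceAs (IsAlgClosed (AlgebraicClosure ℚ))

section

variable {F : Type} [Field F] [NumberField F] (j : F →+* QQ) (K : Type) [Field K] [NumberField K]
  [Algebra F K]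

theorem card_emb : Fintype.card (Emb j K) = Module.finrank F K := by
  let _ : Algebra F QQ := j.toAlgebra
  let e : Emb j K ≃ (K →ₐ[F] QQ) :=
    { toFun := fun φ => { φ.1 with commutes' := φ.2 }
      invFun := fun ψ => ⟨ψ, ψ.commutes⟩
      left_inv := fun φ => rfl
      right_inv := fun ψ => rfl }
  rw [← AlgHom.card F K QQ]
  exact Fintype.card_congr e

/-- the Galois group of `F` permutes the embeddings of `K` over `F` transitively -/
theorem transitive (φ ψ : Emb j K) : ∃ g : gal j, perm j K g φ = ψ := by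
  let _ : Algebra F QQ := j.toAlgebra
  have hQ : IsScalarTower ℚ F QQ := IsScalarTower.of_algebraMap_eq' (Subsingleton.elim _ _)
  have : Algebra.IsAlgebraic F QQ :=
    have := isAlgebraic_QQ
    Algebra.IsAlgebraic.tower_top (K := ℚ) F
  have : IsAlgClosure F QQ := { isAlgClosed := inferInstance, isAlgebraic := inferInstance }
  have : Normal F QQ := IsAlgClosure.normal F QQ
  let φ' : K →ₐ[F] QQ := { φ.1 with commutes' := φ.2 }
  let ψ' : K →ₐ[F] QQ := { ψ.1 with commutes' := ψ.2 }
  obtain ⟨θ, hθ⟩ := Field.exists_primitive_element F K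
  have h1 : minpoly F (ψ' θ) = minpoly F (φ' θ) := by
    rw [minpoly.algHom_eq ψ' ψ'.injective, minpoly.algHom_eq φ' φ'.injective]
  obtain ⟨g, hg⟩ := (Normal.minpoly_eq_iff_mem_orbit QQ).1 h1
  let g' : Gam := (g : QQ ≃ₐ[F] QQ).toRingEquiv
  have hg' : g' ∈ gal j := fun x => g.commutes x
  refine ⟨⟨g', hg'⟩, ?_⟩
  have h3 : ((g : QQ ≃ₐ[F] QQ) : QQ →ₐ[F] QQ).comp φ' = ψ' := by
    apply AlgHom.ext_of_adjoin_eq_top (s := {θ})
    · rw [← IntermediateField.adjoin_simple_toSubalgebra_of_isAlgebraic
        (Algebra.IsAlgebraic.isAlgebraic θ), hθ, IntermediateField.top_toSubalgebra]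
    · rintro x hx
      rw [Set.mem_singleton_iff] at hx
      subst hx
      exact hg
  apply Subtype.ext
  ext x
  exact AlgHom.congr_fun h3 x

instance nonempty_emb : Nonempty (Emb j K) := by
  rw [← Fintype.card_pos_iff, card_emb]
  exact Module.finrank_pos

set_option maxRecDepth 100000 in
theorem key5 : ∀ p : Perm (Fin 5), p * p = 1 → (∀ i j, p i = i → p j = j → i = j) →
    sign p = 1 ∧ p ≠ 1 := by
  decide

theorem involution {X : Type} [Fintype X] [DecidableEq X] (hX : Fintype.card X = 5) (p : Perm X)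
    (h2 : p * p = 1) (h1 : ∀ x y, p x = x → p y = y → x = y) : sign p = 1 ∧ p ≠ 1 := by
  let e : X ≃ Fin 5 := Fintype.equivFinOfCardEq hX
  let f : Perm X ≃* Perm (Fin 5) := e.permCongrHom
  have hf : ∀ i, f p i = e (p (e.symm i)) := fun i => rfl
  obtain ⟨h3, h4⟩ := key5 (f p) (by rw [← map_mul, h2, map_one]) fun i j hi hj => by
    rw [hf] at hi hj
    have hi' : p (e.symm i) = e.symm i := by rw [Equiv.eq_symm_apply]; exact hi
    have hj' : p (e.symm j) = e.symm j := by rw [Equiv.eq_symm_apply]; exact hj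
    exact e.symm.injective (h1 _ _ hi' hj')
  refine ⟨?_, fun h => h4 (by rw [h, map_one])⟩
  have h5 : sign (f p) = sign p := sign_permCongr e p
  rw [← h5, h3]

/-- complex conjugations are double transpositions -/
theorem cc_even [DecidableEq (Emb j K)] (h5 : Module.finrank F K = 5)
    (hK : OneReal F K) (c : gal j) (hc : IsCC c) :
    perm j K c ∈ alternatingGroup (Emb j K) ∧ perm j K c ≠ 1 := by
  rw [mem_alternatingGroup]
  refine involution (by rw [card_emb, h5]) _ ?_ ?_
  · rw [← map_mul]
    have : c * c = 1 := Subtype.ext hc.sq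
    rw [this, map_one]
  · intro φ ψ hφ hψ
    obtain ⟨ι, hι⟩ := hc
    have hreal : ∀ φ : Emb j K, perm j K c φ = φ →
        ((ι.comp φ.1).comp (algebraMap F K) = ι.comp j ∧
          ComplexEmbedding.IsReal (ι.comp φ.1)) := by
      intro φ hφ
      constructor
      · ext x
        change ι (φ.1 (algebraMap F K x)) = ι (j x)
        rw [φ.2]
      · ext x
        change (starRingEnd ℂ) (ι (φ.1 x)) = ι (φ.1 x)
        rw [← hι]
        have h1 : (c : Gam).app (φ.1 x) = φ.1 x := RingHom.congr_fun (congrArg Subtype.val hφ) x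
        rw [h1]
    have h1 := (hK (ι.comp j)).unique (hreal φ hφ) (hreal ψ hψ)
    apply Subtype.ext
    ext x
    exact ι.injective (RingHom.congr_fun h1 x)

/-- the dimension of the representation on the functions with sum zero -/
theorem dim_permRep : (permRep j K).dim + 1 = Module.finrank F K := by
  rw [← card_emb j K]
  exact finrank_sumZero (X := Emb j K)

theorem form_lin {X : Type} [Fintype X] (w : SumZero X) : IsLinearMap ℂ fun v => form X v w :=
  ((form X).flip w).isLinear

theorem orth_permRep : (permRep j K).Orthogonal := by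
  classical
  exact ⟨fun v w => form (Emb j K) v w, ⟨fun v w => Finset.sum_congr rfl fun x _ => mul_comm _ _,
    form_lin, form_nondeg⟩, fun g v w => form_inv (perm j K g) v w⟩

theorem soluble_permRep (h : Group.IsSolvable (perm j K).range) :
    (permRep j K).SolubleImage := by
  obtain ⟨n, hn⟩ := exists_derived _ h
  refine ⟨n, fun g hg => ?_⟩
  change rho0 (Emb j K) (perm j K g) = 1
  rw [hn g hg, map_one]

theorem det_sq [DecidableEq (Emb j K)] (h5 : Module.finrank F K = 5) (g : gal j) :
    (permRep j K).det g * (permRep j K).det g = 1 := by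
  have h1 := det_even (X := Emb j K) (by rw [card_emb, h5]) (p := perm j K g * perm j K g)
    (by rw [mem_alternatingGroup, Perm.sign_mul]; exact Int.units_mul_self _)
  rw [map_mul, map_mul] at h1
  exact h1

theorem det_of_even [DecidableEq (Emb j K)] (h5 : Module.finrank F K = 5) (g : gal j)
    (hg : perm j K g ∈ alternatingGroup (Emb j K)) : (permRep j K).det g = 1 :=
  det_even (X := Emb j K) (by rw [card_emb, h5]) hg

/-- representations of dimension two of involutions which are not scalar -/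
theorem det_cc {H : Subgroup Gam} (τ : ArtinRep H) (h2 : τ.dim = 2) (c : H) (hc : IsCC c)
    (hs : ∀ b : ℂ, τ.ρ c ≠ b • 1) : τ.det c = -1 := by
  refine det_neg_one h2 _ ?_ hs
  rw [← map_mul]
  have : c * c = 1 := Subtype.ext hc.sq
  rw [this, map_one]

/-- linear isomorphisms -/
theorem IsLinIso.exists_equiv {U W : Type} [AddCommGroup U] [Module ℂ U] [AddCommGroup W]
    [Module ℂ W] {f : U → W} (h : IsLinIso f) : ∃ e : U ≃ₗ[ℂ] W, ∀ u, e u = f u :=
  ⟨LinearEquiv.ofBijective (IsLinearMap.mk' f h.1) h.2, fun _ => rfl⟩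

/-- **The main theorem**: the representation on the functions with sum zero is automorphic. -/
theorem auto_permRep {E : WeierstrassCurve ℚ} {Auto : Property} {N : OfField ℕ} {w : OfField ℤ}
    (T : Known E Auto N w) [IsTotallyReal F]
    (h5 : Module.finrank F K ≤ 5)
    (hK : Module.finrank F K = 5 → ¬ Group.IsSolvable (perm j K).range → OneReal F K) :
    Auto (gal j) (permRep j K) := by
  classical
  have hF : IsNumberField (gal j) := isNumberField_gal j
  have hFr : IsTotReal (gal j) := totReal_gal j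
  by_cases hsol : Group.IsSolvable (perm j K).range
  · refine T.soluble _ hF _ ?_ (orth_permRep j K) (soluble_permRep j K hsol)
    have := dim_permRep j K
    omega
  -- degree five
  have hn : Module.finrank F K = 5 := by
    by_contra hne
    apply hsol
    have h4 : Fintype.card (Emb j K) ≤ 4 := by rw [card_emb]; omega
    have := solvable_le_four h4
    exact solvable_subgroup _
  have hcard : Fintype.card (Emb j K) = 5 := by rw [card_emb, hn]
  have hone := hK hn hsol
  have : MulAction.IsPretransitive (perm j K).range (Emb j K) := by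
    constructor
    intro φ ψ
    obtain ⟨g, hg⟩ := transitive j K φ ψ
    exact ⟨⟨perm j K g, g, rfl⟩, hg⟩
  have hA : alternatingGroup (Emb j K) ≤ (perm j K).range :=
    (dichotomy hcard (perm j K).range).resolve_left hsol
  have hdim : (permRep j K).dim = 4 := by
    have := dim_permRep j K
    omega
  have hnt : ∀ {H : Subgroup Gam} (τ : ArtinRep H), τ.dim = 2 → Nontrivial τ.W := fun τ h =>
    Module.nontrivial_of_finrank_pos (R := ℂ) (by
      have h' : Module.finrank ℂ τ.W = 2 := h
      rw [h']; norm_num)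
  by_cases hdet : ∀ g, (permRep j K).det g = 1
  · -- the alternating group
    obtain ⟨τ, τ', h2, h2', hT⟩ := T.tensorLifts _ hF _ hdim (orth_permRep j K) hdet
    obtain ⟨b, ⟨e, heb⟩, hb⟩ := id hT
    have he : ∀ (g : gal j) (u : τ.W) (v : τ'.W), rho0 _ (perm j K g) (e (u ⊗ₜ[ℂ] v)) =
        e (τ.ρ g u ⊗ₜ[ℂ] τ'.ρ g v) := by
      intro g u v
      rw [← heb, ← heb]
      exact hb g u v
    refine T.tensor _ hF τ τ' _ h2 h2' ?_ ?_ hT
    · refine T.odd _ hF hFr τ h2 fun c hc => det_cc τ h2 c hc fun b => ?_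
      obtain ⟨hc1, hc2⟩ := cc_even j K hn hone c hc
      exact not_scalar hcard (perm j K) τ.ρ τ'.ρ (fun _ => 1) (fun _ => one_ne_zero) e
        (fun g u v => by rw [one_smul]; exact he g u v) hA h2 (hnt τ' h2') c hc1 hc2 b
    · refine T.odd _ hF hFr τ' h2' fun c hc => det_cc τ' h2' c hc fun b => ?_
      obtain ⟨hc1, hc2⟩ := cc_even j K hn hone c hc
      exact not_scalar hcard (perm j K) τ'.ρ τ.ρ (fun _ => 1) (fun _ => one_ne_zero)
        ((TensorProduct.comm ℂ τ'.W τ.W).trans e)
        (fun g u v => by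
          rw [one_smul]
          change rho0 _ (perm j K g) (e (TensorProduct.comm ℂ τ'.W τ.W (u ⊗ₜ[ℂ] v))) =
            e (TensorProduct.comm ℂ τ'.W τ.W (τ'.ρ g u ⊗ₜ[ℂ] τ.ρ g v))
          rw [TensorProduct.comm_tmul, TensorProduct.comm_tmul]
          exact he g v u) hA h2' (hnt τ h2) c hc1 hc2 b
  · -- the symmetric group
    push Not at hdet
    obtain ⟨H', hle, hmem, τ, ψ, S, h2, hψ, hTw, hAs⟩ :=
      T.asaiLifts _ hF _ hdim (orth_permRep j K) hdet
    obtain ⟨f₀, hf₀, he₀'⟩ := id hTw
    obtain ⟨e₀, hef⟩ := hf₀.exists_equiv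
    obtain ⟨σ, b, hσ, ⟨e₁, heb⟩, hb, -⟩ := id hAs
    have he₀ : ∀ (g : gal j) (x : SumZero (Emb j K)), S.ρ g (e₀ x) =
        ψ g • e₀ (rho0 _ (perm j K g) x) := by
      intro g x
      rw [hef, hef]
      exact he₀' g x
    have he₁ : ∀ (h h' : H'), (h' : Gam) = σ * h * (σ : Gam)⁻¹ → ∀ u v,
        S.ρ (Subgroup.inclusion hle h) (e₁ (u ⊗ₜ[ℂ] v)) = e₁ (τ.ρ h u ⊗ₜ[ℂ] τ.ρ h' v) := by
      intro h h' hh u v
      rw [← heb, ← heb]
      exact hb (Subgroup.inclusion hle h) h h' rfl hh u v
    -- the conjugation by `σ`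
    have hdm : ∀ a b : gal j, (permRep j K).det (a * b) =
        (permRep j K).det a * (permRep j K).det b := fun a b => by
      change LinearMap.det ((permRep j K).ρ (a * b)) = _
      rw [map_mul, map_mul]; rfl
    have hconj : ∀ h : H', (σ : Gam) * h * (σ : Gam)⁻¹ ∈ H' := by
      intro h
      have h1 := (hmem (σ * Subgroup.inclusion hle h * σ⁻¹)).2 (by
        rw [hdm, hdm, (hmem (Subgroup.inclusion hle h)).1 h.2, mul_one, ← hdm, mul_inv_cancel]
        change LinearMap.det ((permRep j K).ρ 1) = 1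
        rw [map_one, map_one])
      exact h1
    let s : H' →* H' :=
      { toFun := fun h => ⟨σ * h * (σ : Gam)⁻¹, hconj h⟩
        map_one' := by apply Subtype.ext; simp
        map_mul' := fun a b => by
          apply Subtype.ext
          change (σ : Gam) * (a * b) * (σ : Gam)⁻¹ =
            ((σ : Gam) * a * (σ : Gam)⁻¹) * (σ * b * (σ : Gam)⁻¹)
          group }
    let π : H' →* Perm (Emb j K) := (perm j K).comp (Subgroup.inclusion hle)
    have hψ0 : ∀ g, ψ g ≠ 0 := by
      intro g h0
      have h1 : ψ g * ψ g⁻¹ = 1 := by rw [← map_mul, mul_inv_cancel, map_one]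
      rw [h0, zero_mul] at h1
      exact zero_ne_one h1
    let e : TensorProduct ℂ τ.W τ.W ≃ₗ[ℂ] SumZero (Emb j K) := e₁.trans e₀.symm
    have he : ∀ (h : H') (u v : τ.W), ψ (Subgroup.inclusion hle h) • rho0 _ (π h) (e (u ⊗ₜ[ℂ] v)) =
        e (τ.ρ h u ⊗ₜ[ℂ] τ.ρ (s h) v) := by
      intro h u v
      apply e₀.injective
      have h1 := he₀ (Subgroup.inclusion hle h) (e (u ⊗ₜ[ℂ] v))
      have h3 : e₀ (e (u ⊗ₜ[ℂ] v)) = e₁ (u ⊗ₜ[ℂ] v) := e₀.apply_symm_apply _
      have h4 : e₀ (e (τ.ρ h u ⊗ₜ[ℂ] τ.ρ (s h) v)) = e₁ (τ.ρ h u ⊗ₜ[ℂ] τ.ρ (s h) v) :=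
        e₀.apply_symm_apply _
      rw [h3, he₁ h (s h) rfl u v] at h1
      rw [h4, h1]
      exact e₀.map_smul _ _
    have hA' : alternatingGroup (Emb j K) ≤ π.range := by
      intro p hp
      obtain ⟨g, hg⟩ := hA hp
      have h1 : (g : Gam) ∈ H' := (hmem g).2 (det_of_even j K hn g (by rw [hg]; exact hp))
      exact ⟨⟨g, h1⟩, hg⟩
    have hns : ∀ c : H', IsCC c → ∀ b : ℂ, τ.ρ c ≠ b • 1 := by
      intro c hc b
      obtain ⟨hc1, hc2⟩ := cc_even j K hn hone (Subgroup.inclusion hle c) hc
      exact not_scalar hcard π τ.ρ (τ.ρ.comp s) (fun h => ψ (Subgroup.inclusion hle h))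
        (fun _ => hψ0 _) e he hA' h2 (hnt τ h2) c hc1 hc2 b
    have hH'r : IsTotReal H' := by
      intro c hc
      have h1 := hFr c hc
      exact (hmem ⟨c, h1⟩).2 (det_of_even j K hn _ (cc_even j K hn hone ⟨c, h1⟩ hc).1)
    have hH'n : IsNumberField H' := by
      obtain ⟨M, hM⟩ := hF
      obtain ⟨L, hL⟩ := (permRep j K).artin
      refine ⟨M ∪ L, fun g hg => ?_⟩
      have h1 : g ∈ gal j := hM g fun x hx => hg x (Finset.mem_union_left _ hx)
      refine (hmem ⟨g, h1⟩).2 ?_
      change LinearMap.det ((permRep j K).ρ ⟨g, h1⟩) = 1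
      rw [hL ⟨g, h1⟩ fun x hx => hg x (Finset.mem_union_right _ hx), map_one]
    have hidx : H'.relIndex (gal j) = 2 := by
      obtain ⟨a, ha⟩ := hdet
      have hpm : ∀ g, (permRep j K).det g = 1 ∨ (permRep j K).det g = -1 := fun g =>
        mul_self_eq_one_iff.1 (det_sq j K hn g)
      have ha' := (hpm a).resolve_left ha
      have hm : ∀ g : gal j, g ∈ H'.subgroupOf (gal j) ↔
          (permRep j K).det g = 1 := fun g => by rw [Subgroup.mem_subgroupOf, hmem]
      change (H'.subgroupOf (gal j)).index = 2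
      rw [Subgroup.index_eq_two_iff]
      refine ⟨a, fun b => ?_⟩
      rw [hm, hm, hdm, ha']
      rcases hpm b with h | h <;> rw [h] <;> norm_num [Xor]
    have hτ : Auto H' τ := T.odd H' hH'n hH'r τ h2 fun c hc => det_cc τ h2 c hc (hns c hc)
    exact T.twist _ ψ _ S hF hψ hTw (T.asai _ H' hle hH'n hidx τ S h2 hτ hAs)

end

/-! ## extensions of `ℚ` -/

/-- embeddings in `ℚ̄` -/
theorem exists_emb (F : Type) [Field F] [NumberField F] : Nonempty (F →+* QQ) :=
  ⟨(IsAlgClosed.lift (R := ℚ) (S := F) (M := QQ) : F →ₐ[ℚ] QQ)⟩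

section

variable (K : Type) [Field K] [NumberField K]

theorem oneReal_QB (h : InfinitePlace.nrRealPlaces K = 1) : OneReal ℚ K := by
  classical
  intro φ₀
  rw [← InfinitePlace.card_real_embeddings, Fintype.card_eq_one_iff] at h
  obtain ⟨⟨φ, hφ⟩, huniq⟩ := h
  refine ⟨φ, ⟨Subsingleton.elim _ _, hφ⟩, ?_⟩
  rintro ψ ⟨-, hψ⟩
  exact congrArg Subtype.val (huniq ⟨ψ, hψ⟩)

end

/-- **The theorem.** -/
theorem main {E : WeierstrassCurve ℚ} {Auto : Property} {N : OfField ℕ} {w : OfField ℤ}
    (T : Known E Auto N w) : OverTotallyReal E N w ∧ DegreeAtMostFive E N w := by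
  have hA : OverTotallyReal E N w := by
    intro F _ _ _ K _ _ _ h5 h
    by_cases hr : IsTotallyReal K
    · exact T.totallyReal K
    obtain ⟨j⟩ := exists_emb F
    refine T.base F j K (gal j) (permRep j K) (isGal_gal j) (isSumZeroRep_permRep j K)
      (auto_permRep j K T h5 fun hn hsol => ?_)
    rcases h hn with h1 | h1 | h1
    · exact h1
    · exact absurd h1 hr
    · refine absurd (solvable_of_derived _ ?_) hsol
      obtain ⟨n, hn'⟩ := h1 j (gal j) (isGal_gal j)
      refine ⟨n, fun g hg => ?_⟩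
      ext1 φ
      exact ((moves_iff j g φ φ).1 (hn' g hg φ)).symm
  refine ⟨hA, fun K _ _ h5 h3 => ?_⟩
  refine hA ℚ K h5 fun hn => ?_
  have h1 := InfinitePlace.card_add_two_mul_card_eq_rank K
  rw [hn] at h1
  have h2 : InfinitePlace.nrRealPlaces K ≠ 3 := fun h => h3 ⟨hn, h⟩
  have h4 : InfinitePlace.nrRealPlaces K = 1 ∨ InfinitePlace.nrRealPlaces K = 5 := by omega
  rcases h4 with h4 | h4
  · exact Or.inl (oneReal_QB K h4)
  · right; left
    have h6 : InfinitePlace.nrComplexPlaces K = 0 := by omega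
    exact nrComplexPlaces_eq_zero_iff.1 h6

end Pool.Agent.V7H2.HW
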