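import Pool.Agent.V7H2.HW.GT

/-!
# The representation on the functions with sum zero
-/

set_option autoImplicit false
set_option linter.unusedSectionVars false

namespace Pool.Agent.V7H2.HW

open Equiv Equiv.Perm

section

variable (X : Type) [Fintype X]

/-- the functions with sum zero -/
def SumZero : Submodule ℂ (X → ℂ) where
  carrier := {f | ∑ x, f x = 0}
  add_mem' := fun {f g} hf hg => by
    change ∑ x, (f x + g x) = 0
    rw [Finset.sum_add_distrib, show ∑ x, f x = 0 from hf, show ∑ x, g x = 0 from hg, add_zero]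
  zero_mem' := by simp
  smul_mem' := fun c f hf => by
    change ∑ x, c * f x = 0
    rw [← Finset.mul_sum, show ∑ x, f x = 0 from hf, mul_zero]

/-- the action of the permutations on the functions with sum zero, `(p f)(x) = f(p⁻¹ x)` -/
def rho0 : Perm X →* Module.End ℂ (SumZero X) where
  toFun p :=
    { toFun := fun f => ⟨fun x => f.1 (p⁻¹ x), by
        have h : ∑ x, f.1 (p⁻¹ x) = ∑ x, f.1 x := Equiv.sum_comp p⁻¹ f.1
        change ∑ x, f.1 (p⁻¹ x) = 0
        rw [h]; exact f.2⟩
      map_add' := fun f g => rfl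
      map_smul' := fun c f => rfl }
  map_one' := rfl
  map_mul' p q := by
    ext f x
    change f.1 ((p * q)⁻¹ x) = f.1 (q⁻¹ (p⁻¹ x))
    rw [mul_inv_rev]; rfl

end

variable {X : Type} [Fintype X]

theorem rho0_apply (p : Perm X) (f : SumZero X) (x : X) : (rho0 X p f).1 x = f.1 (p⁻¹ x) := rfl

theorem sumZero_eq_ker : SumZero X = LinearMap.ker (∑ x : X, (LinearMap.proj x : (X → ℂ) →ₗ[ℂ] ℂ)) := by
  ext f
  rw [LinearMap.mem_ker, LinearMap.sum_apply]
  rfl

theorem finrank_sumZero [Nonempty X] : Module.finrank ℂ (SumZero X) + 1 = Fintype.card X := by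
  classical
  rw [sumZero_eq_ker]
  have h := Module.Dual.finrank_ker_add_one_of_ne_zero
    (f := (∑ x : X, (LinearMap.proj x : (X → ℂ) →ₗ[ℂ] ℂ))) (fun h => by
      obtain ⟨x⟩ := ‹Nonempty X›
      have h1 := LinearMap.congr_fun h (Pi.single x 1)
      rw [LinearMap.sum_apply] at h1
      simp [Finset.sum_pi_single'] at h1)
  rw [h, Module.finrank_fintype_fun_eq_card]

/-- the standard bilinear form -/
def form (X : Type) [Fintype X] : SumZero X →ₗ[ℂ] SumZero X →ₗ[ℂ] ℂ :=
  LinearMap.mk₂ ℂ (fun f g => ∑ x, f.1 x * g.1 x)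
    (fun f f' g => by
      rw [← Finset.sum_add_distrib]
      exact Finset.sum_congr rfl fun x _ => add_mul _ _ _)
    (fun c f g => by
      rw [smul_eq_mul, Finset.mul_sum]
      exact Finset.sum_congr rfl fun x _ => mul_assoc _ _ _)
    (fun f g g' => by
      rw [← Finset.sum_add_distrib]
      exact Finset.sum_congr rfl fun x _ => mul_add _ _ _)
    (fun c f g => by
      rw [smul_eq_mul, Finset.mul_sum]
      exact Finset.sum_congr rfl fun x _ => mul_left_comm _ _ _)

theorem form_apply (f g : SumZero X) : form X f g = ∑ x, f.1 x * g.1 x := rfl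

variable [DecidableEq X]

/-- the function `δ_x - δ_y` -/
def dd (x y : X) : SumZero X := ⟨Pi.single x 1 - Pi.single y 1, by
  change ∑ z, ((Pi.single x 1 : X → ℂ) z - (Pi.single y 1 : X → ℂ) z) = 0
  rw [Finset.sum_sub_distrib, Finset.sum_pi_single', Finset.sum_pi_single']
  simp⟩

theorem dd_apply (x y z : X) : (dd x y).1 z = (if z = x then 1 else 0) - (if z = y then 1 else 0) := by
  change (Pi.single x 1 : X → ℂ) z - (Pi.single y 1 : X → ℂ) z = _
  rw [Pi.single_apply, Pi.single_apply]

theorem form_nondeg (f : SumZero X) (h : ∀ g, form X f g = 0) : f = 0 := by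
  have h1 : ∀ x y : X, f.1 x = f.1 y := by
    intro x y
    have h2 := h (dd x y)
    rw [form_apply] at h2
    simp only [dd_apply, mul_sub, Finset.sum_sub_distrib, mul_ite, mul_one, mul_zero,
      Finset.sum_ite_eq', Finset.mem_univ, if_true] at h2
    exact sub_eq_zero.1 h2
  apply Subtype.ext
  funext x
  have h3 : ∑ y, f.1 y = 0 := f.2
  have h4 : ∑ y : X, f.1 y = (Fintype.card X : ℂ) * f.1 x := by
    rw [Finset.sum_congr rfl fun y _ => h1 y x, Finset.sum_const, nsmul_eq_mul]
    rfl
  rw [h4] at h3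
  rcases mul_eq_zero.1 h3 with h5 | h5
  · exfalso
    have : Fintype.card X = 0 := by exact_mod_cast h5
    exact (Fintype.card_eq_zero_iff.1 this).elim x
  · exact h5

theorem form_inv (p : Perm X) (f g : SumZero X) : form X (rho0 X p f) (rho0 X p g) = form X f g := by
  rw [form_apply, form_apply]
  exact Equiv.sum_comp p⁻¹ fun x => f.1 x * g.1 x

theorem rho0_dd (p : Perm X) (x y : X) : rho0 X p (dd x y) = dd (p x) (p y) := by
  apply Subtype.ext
  funext z
  rw [rho0_apply, dd_apply, dd_apply]
  congr 1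
  · exact if_congr (by rw [Perm.inv_eq_iff_eq]) rfl rfl
  · exact if_congr (by rw [Perm.inv_eq_iff_eq]) rfl rfl

/-- three more points -/
theorem three_points (hX : Fintype.card X = 5) {x y : X} (hxy : x ≠ y) :
    ∃ z w u : X, z ≠ w ∧ z ≠ u ∧ w ≠ u ∧ (∀ t, t ≠ x → t ≠ y → t = z ∨ t = w ∨ t = u) ∧
      z ≠ x ∧ z ≠ y ∧ w ≠ x ∧ w ≠ y ∧ u ≠ x ∧ u ≠ y := by
  have h1 : (Finset.univ \ {x, y} : Finset X).card = 3 := by
    rw [Finset.card_sdiff_of_subset (Finset.subset_univ _), Finset.card_univ, hX,
      Finset.card_pair hxy]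
  obtain ⟨z, w, u, h2, h3, h4, h5⟩ := Finset.card_eq_three.1 h1
  have h6 : ∀ t, t ∈ ({z, w, u} : Finset X) ↔ t ≠ x ∧ t ≠ y := by
    intro t
    rw [← h5]
    simp
  have hz := (h6 z).1 (by simp)
  have hw := (h6 w).1 (by simp)
  have hu := (h6 u).1 (by simp)
  refine ⟨z, w, u, h2, h3, h4, fun t ht1 ht2 => ?_, hz.1, hz.2, hw.1, hw.2, hu.1, hu.2⟩
  have := (h6 t).2 ⟨ht1, ht2⟩
  simpa using this

/-- the commutant of the alternating group consists of scalars: the values on `dd x y` -/
theorem commutant_dd (hX : Fintype.card X = 5) (T : Module.End ℂ (SumZero X))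
    (hT : ∀ p ∈ alternatingGroup X, ∀ v, T (rho0 X p v) = rho0 X p (T v)) {x y : X}
    (hxy : x ≠ y) : T (dd x y) = (T (dd x y)).1 x • dd x y := by
  obtain ⟨z, w, u, hzw, hzu, hwu, hall, hzx, hzy, hwx, hwy, hux, huy⟩ := three_points hX hxy
  set v := T (dd x y) with hv
  -- three-cycles
  have h1 : ∀ a b c : X, a ≠ b → a ≠ c → b ≠ c → a ≠ x → a ≠ y → b ≠ x → b ≠ y → c ≠ x → c ≠ y →
      v.1 a = v.1 b := by
    intro a b c hab hac hbc hax hay hbx hby hcx hcy
    have hp : swap a b * swap b c ∈ alternatingGroup X := by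
      rw [mem_alternatingGroup, Perm.sign_mul, sign_swap hab, sign_swap hbc]
      norm_num
    have h2 := hT _ hp (dd x y)
    rw [rho0_dd] at h2
    have e1 : (swap a b * swap b c) x = x := by
      rw [Perm.mul_apply, swap_apply_of_ne_of_ne hbx.symm hcx.symm,
        swap_apply_of_ne_of_ne hax.symm hbx.symm]
    have e2 : (swap a b * swap b c) y = y := by
      rw [Perm.mul_apply, swap_apply_of_ne_of_ne hby.symm hcy.symm,
        swap_apply_of_ne_of_ne hay.symm hby.symm]
    rw [e1, e2, ← hv] at h2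
    have h3 := congrFun (congrArg Subtype.val h2) a
    rw [rho0_apply, mul_inv_rev, Perm.mul_apply, swap_inv, swap_inv, swap_apply_left,
      swap_apply_left] at h3
    have h4 := congrFun (congrArg Subtype.val h2) b
    rw [rho0_apply, mul_inv_rev, Perm.mul_apply, swap_inv, swap_inv, swap_apply_right,
      swap_apply_of_ne_of_ne hab hac] at h4
    exact h4.symm
  have hzw' := h1 z w u hzw hzu hwu hzx hzy hwx hwy hux huy
  have hwu' := h1 w u z hwu hzw.symm hzu.symm hwx hwy hux huy hzx hzy
  -- a double transposition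
  have hq : swap x y * swap z w ∈ alternatingGroup X := by
    rw [mem_alternatingGroup, Perm.sign_mul, sign_swap hxy, sign_swap hzw]
    norm_num
  have h2 := hT _ hq (dd x y)
  rw [rho0_dd] at h2
  have e1 : (swap x y * swap z w) x = y := by
    rw [Perm.mul_apply, swap_apply_of_ne_of_ne hzx.symm hwx.symm, swap_apply_left]
  have e2 : (swap x y * swap z w) y = x := by
    rw [Perm.mul_apply, swap_apply_of_ne_of_ne hzy.symm hwy.symm, swap_apply_right]
  have e3 : dd y x = - dd x y := by
    apply Subtype.ext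
    funext t
    change (dd y x).1 t = -(dd x y).1 t
    rw [dd_apply, dd_apply]; ring
  rw [e1, e2, e3, map_neg, ← hv] at h2
  have hu0 : v.1 u = 0 := by
    have h3 := congrFun (congrArg Subtype.val h2) u
    rw [rho0_apply, mul_inv_rev, Perm.mul_apply, swap_inv, swap_inv,
      swap_apply_of_ne_of_ne hux huy, swap_apply_of_ne_of_ne hzu.symm hwu.symm] at h3
    have h4 : -(v.1 u) = v.1 u := h3
    linear_combination (-1 / 2 : ℂ) * h4
  have hy : v.1 y = - v.1 x := by
    have h3 := congrFun (congrArg Subtype.val h2) y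
    rw [rho0_apply, mul_inv_rev, Perm.mul_apply, swap_inv, swap_inv, swap_apply_right,
      swap_apply_of_ne_of_ne hzx.symm hwx.symm] at h3
    have h4 : -(v.1 y) = v.1 x := h3
    linear_combination -h4
  apply Subtype.ext
  funext t
  change v.1 t = v.1 x * (dd x y).1 t
  rw [dd_apply]
  by_cases htx : t = x
  · subst htx
    rw [if_pos rfl, if_neg hxy]; ring
  by_cases hty : t = y
  · subst hty
    rw [if_neg htx, if_pos rfl, hy]; ring
  rw [if_neg htx, if_neg hty]
  rcases hall t htx hty with h | h | h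
  · subst h; rw [hzw', hwu', hu0]; ring
  · subst h; rw [hwu', hu0]; ring
  · subst h; rw [hu0]; ring

/-- the commutant of the alternating group consists of scalars -/
theorem commutant (hX : Fintype.card X = 5) (T : Module.End ℂ (SumZero X))
    (hT : ∀ p ∈ alternatingGroup X, ∀ v, T (rho0 X p v) = rho0 X p (T v)) :
    ∃ a : ℂ, T = a • 1 := by
  have h0 : ∀ x y : X, x ≠ y → T (dd x y) = (T (dd x y)).1 x • dd x y :=
    fun x y hxy => commutant_dd hX T hT hxy
  obtain ⟨o⟩ : Nonempty X := by rw [← Fintype.card_pos_iff, hX]; norm_num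
  -- the scalars agree
  have h1 : ∀ x y : X, x ≠ o → y ≠ o → x ≠ y → (T (dd x o)).1 x = (T (dd y o)).1 y := by
    intro x y hx hy hxy
    have e : dd x o = dd x y + dd y o := by
      apply Subtype.ext
      funext t
      change (dd x o).1 t = (dd x y).1 t + (dd y o).1 t
      rw [dd_apply, dd_apply, dd_apply]; ring
    have h2 : T (dd x o) = T (dd x y) + T (dd y o) := by rw [← map_add, ← e]
    rw [h0 x o hx, h0 x y hxy, h0 y o hy] at h2
    have h3 := congrFun (congrArg Subtype.val h2) o
    change (T (dd x o)).1 x * (dd x o).1 o = (T (dd x y)).1 x * (dd x y).1 o +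
      (T (dd y o)).1 y * (dd y o).1 o at h3
    rw [dd_apply, dd_apply, dd_apply, if_neg hx.symm, if_pos rfl, if_neg hy.symm] at h3
    linear_combination -h3
  obtain ⟨x₁, hx₁⟩ : ∃ x₁ : X, x₁ ≠ o := by
    have : 1 < Fintype.card X := by rw [hX]; norm_num
    exact Fintype.exists_ne_of_one_lt_card this o
  refine ⟨(T (dd x₁ o)).1 x₁, ?_⟩
  apply LinearMap.ext
  intro v
  have hv : v = ∑ x, v.1 x • dd x o := by
    apply Subtype.ext
    funext t
    have h2 : (∑ x, v.1 x • dd x o : SumZero X).1 t = ∑ x, v.1 x * (dd x o).1 t := by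
      rw [Submodule.coe_sum, Finset.sum_apply]; rfl
    rw [h2]
    simp only [dd_apply, mul_sub, Finset.sum_sub_distrib, mul_ite, mul_one, mul_zero]
    rw [Finset.sum_ite_eq, if_pos (Finset.mem_univ _)]
    by_cases ht : t = o
    · simp only [if_pos ht]
      rw [show ∑ x, v.1 x = 0 from v.2, sub_zero]
    · simp only [if_neg ht, Finset.sum_const_zero, sub_zero]
  conv_lhs => rw [hv]
  conv_rhs => rw [hv]
  rw [map_sum, map_sum]
  refine Finset.sum_congr rfl fun x _ => ?_
  rw [map_smul, map_smul]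
  congr 1
  by_cases hxo : x = o
  · subst hxo
    have : dd x x = 0 := by
      apply Subtype.ext
      funext t
      change (dd x x).1 t = 0
      rw [dd_apply, sub_self]
    rw [this, map_zero, map_zero]
  · rw [h0 x o hxo]
    by_cases hx1 : x = x₁
    · subst hx1; rfl
    · rw [h1 x x₁ hxo hx₁ hx1]; rfl

/-- the determinant of even permutations -/
theorem det_even (hX : Fintype.card X = 5) {p : Perm X} (hp : p ∈ alternatingGroup X) :
    LinearMap.det (rho0 X p) = 1 := by
  have h1 : p ∈ commutator (Perm X) := by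
    rw [alternatingGroup.commutator_perm_eq (by rw [Nat.card_eq_fintype_card, hX])]
    exact hp
  let χ : Perm X →* ℂˣ := ((LinearMap.det : Module.End ℂ (SumZero X) →* ℂ).comp (rho0 X)).toHomUnits
  have h2 : p ∈ χ.ker := Abelianization.commutator_subset_ker χ h1
  have h3 := congrArg Units.val (MonoidHom.mem_ker.1 h2)
  exact h3

end Pool.Agent.V7H2.HW
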